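import Pool.Agent.KExp.FMain
import Pool.Agent.KRed.Sch2

/-!
# MP_f87d4f_lc : K-reducibility to 1-random sets with an error term below the Kraft bound

The error term `f(n)` is trivial if `∑ 2^(-f(n))` is finite (Kraft's inequality), so `log n` is the
border. It is improved to `(1 - 10⁻⁹) log n`, for all sets and all `n`, with one constant.
-/

set_option autoImplicit false

namespace Pool.Agent.Results.MP_f87d4f_lc.BelowKraft

open AC

/-- The prefix-free complexity of the string `σ`, with respect to the machine `U`. -/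
noncomputable def K (U : List Bool →. ℕ) (σ : List Bool) : ℕ := KC U (Encodable.encode σ)

/-- Let `U` be any optimal prefix-free machine and `K` its complexity. There is `c` such that for
every set `A` there is a 1-random set `B` with `K(B ↾ n) ≥ n - c` for all `n`, and
`K(A ↾ n) ≤ K(B ↾ n) + (1 - 10⁻⁹) log₂ n + c` for all `n ≥ 1`. -/
theorem result (U : List Bool →. ℕ) (hU : IsOptimal ∅ U) :
    ∃ c : ℕ, ∀ A : Set ℕ, ∃ B : Set ℕ, IsRandom B ∧ (∀ n, n ≤ K U (restr B n) + c) ∧
      ∀ n, 1 ≤ n → (K U (restr A n) : ℝ) ≤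
        K U (restr B n) + (1 - 1 / 10 ^ 9) * Real.logb 2 n + c := by
  obtain ⟨c, hc⟩ := KExp.full_main hU
  refine ⟨c + 1, fun A => ?_⟩
  obtain ⟨B, h1, h2⟩ := hc A
  refine ⟨B, KRed.random_of_KS hU h1, fun n => ?_, fun n hn => ?_⟩
  · have := h1 n
    have e : KRed.KS U (restr B n) = K U (restr B n) := rfl
    omega
  · have h3 := h2 n hn
    have e1 : KRed.KS U (restr B n) = K U (restr B n) := rfl
    have e2 : KRed.KS U (restr A n) = K U (restr A n) := rfl
    rw [e1, e2] at h3
    push_cast at h3 ⊢
    linarith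

end Pool.Agent.Results.MP_f87d4f_lc.BelowKraft
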