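import Pool.Agent.RKr.Enum

/-!
# MP_f87d4f_lc : some set is not rK-reducible to any 1-random set

Q1 asks whether every set is K-reducible to a 1-random set. rK-reducibility lies between
cl-reducibility (computable Lipschitz, use `n + O(1)`) and K-reducibility. The negative answer known
for cl-reducibility is extended to rK-reducibility.
-/

namespace Pool.Agent.Results.MP_f87d4f_lc.RKVersion

open AC

/-- rK-reducibility (Downey, Hirschfeldt, LaForte): `A ≤_rK B` if there are a partial computable
function `f` and a constant `k` such that for every `n` the string `A ↾ n` is one of the values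
`f (B ↾ n, j)`, `j ≤ k`. -/
def RKRed (A B : Set ℕ) : Prop :=
  ∃ (f : List Bool × ℕ →. List Bool) (k : ℕ), Partrec f ∧
    ∀ n, ∃ j ≤ k, restr A n ∈ f (restr B n, j)

/-- the initial segment of length `n` of an infinite sequence -/
def pre (x : ℕ → Bool) (n : ℕ) : List Bool := (List.range n).map x

theorem length_pre (x : ℕ → Bool) (n : ℕ) : (pre x n).length = n := by simp [pre]

theorem take_pre (x : ℕ → Bool) {i n : ℕ} (h : i ≤ n) : (pre x n).take i = pre x i := by
  unfold pre
  rw [← List.map_take, List.take_range]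
  congr 2
  omega

theorem pre_congr {x y : ℕ → Bool} {n : ℕ} (h : ∀ i < n, x i = y i) : pre x n = pre y n := by
  unfold pre
  exact List.map_congr_left fun i hi => h i (List.mem_range.1 hi)

/-- the partial computable functions -/
abbrev PF := {f : List Bool × ℕ →. List Bool // Partrec f}

theorem exists_code (f : PF) : ∃ c : Nat.Partrec.Code, c.eval =
    fun n => Part.bind (Encodable.decode (α := List Bool × ℕ) n) fun a =>
      (f.1 a).map Encodable.encode :=
  Nat.Partrec.Code.exists_code.1 f.2

instance : Countable PF := by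
  choose c hc using exists_code
  refine Function.Injective.countable (f := c) fun f g hfg => Subtype.ext ?_
  have h1 := (hc f).symm.trans ((congrArg Nat.Partrec.Code.eval hfg).trans (hc g))
  funext a
  have h2 := congrFun h1 (Encodable.encode a)
  simp only [Encodable.encodek, Part.coe_some, Part.bind_some] at h2
  ext b
  have h3 : Encodable.encode b ∈ (f.1 a).map Encodable.encode ↔
      Encodable.encode b ∈ (g.1 a).map Encodable.encode := by rw [h2]
  simpa [Part.mem_map_iff] using h3

/-- some initial segment of `x` has all its hosts in `W m` -/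
def Op (f : List Bool × ℕ →. List Bool) (k : ℕ) (Wm : List Bool → Prop) : Set (ℕ → Bool) :=
  {x | ∃ n, ∀ τ : List Bool, τ.length = n →
    (∀ i ≤ n, ∃ j ≤ k, (pre x n).take i ∈ f (τ.take i, j)) → Wm τ}

theorem isOpen_Op (f : List Bool × ℕ →. List Bool) (k : ℕ) (Wm : List Bool → Prop) :
    IsOpen (Op f k Wm) := by
  rw [(PiNat.isTopologicalBasis_cylinders (E := fun _ => Bool)).isOpen_iff]
  rintro x ⟨n, hn⟩
  refine ⟨PiNat.cylinder x n, ⟨x, n, rfl⟩, PiNat.self_mem_cylinder x n, ?_⟩
  intro y hy
  refine ⟨n, ?_⟩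
  rw [pre_congr (y := x) fun i hi => hy i hi]
  exact hn

theorem dense_Op {f : List Bool × ℕ →. List Bool} {k : ℕ} {Wm : List Bool → Prop}
    (h : ∀ α : List Bool, ∃ σ : List Bool, σ.take α.length = α ∧
      ∀ τ : List Bool, τ.length = σ.length →
        (∀ i ≤ τ.length, ∃ j ≤ k, σ.take i ∈ f (τ.take i, j)) → Wm τ) :
    Dense (Op f k Wm) := by
  rw [(PiNat.isTopologicalBasis_cylinders (E := fun _ => Bool)).dense_iff]
  rintro _ ⟨x, n, rfl⟩ -
  obtain ⟨σ, h1, h2⟩ := h (pre x n)
  rw [length_pre] at h1
  set y : ℕ → Bool := fun i => σ.getD i false with hy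
  have hσ : pre y σ.length = σ := by
    refine List.ext_getElem (length_pre _ _) fun i hi1 hi2 => ?_
    simp [pre, hy, List.getElem?_eq_getElem hi2]
  refine ⟨y, ?_, σ.length, ?_⟩
  · intro i hi
    have hlen : n ≤ σ.length := by
      have := congrArg List.length h1
      rw [List.length_take, length_pre] at this
      omega
    have h3 : σ[i]? = (pre x n)[i]? := by
      rw [← h1, List.getElem?_take_of_lt hi]
    have h4 : (pre x n)[i]? = some (x i) := by simp [pre, hi]
    rw [h4] at h3
    simp [hy, List.getD_eq_getElem?_getD, h3]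
  · intro τ hτ hH
    rw [hσ] at hH
    exact h2 τ hτ (by rw [hτ]; exact hH)

theorem pre_eq_restr (x : ℕ → Bool) (n : ℕ) : restr {i | x i = true} n = pre x n := by
  unfold restr pre
  exact List.map_congr_left fun i _ => by simp

theorem comeager : ∀ᶠ x in residual (ℕ → Bool),
    ∀ B, IsRandom B → ¬ RKRed {i | x i = true} B := by
  choose cd hcd using exists_code
  have h1 : ∀ z : PF × ℕ × ℕ, IsOpen (Op z.1.1 z.2.1 (RKr.W z.2.1 (cd z.1) z.2.2)) :=
    fun z => isOpen_Op _ _ _
  have h2 : ∀ z : PF × ℕ × ℕ, Dense (Op z.1.1 z.2.1 (RKr.W z.2.1 (cd z.1) z.2.2)) :=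
    fun z => dense_Op fun α => RKr.W_dense (hcd z.1) z.2.1 z.2.2 α
  have h3 : ∀ᶠ x in residual (ℕ → Bool), ∀ z : PF × ℕ × ℕ,
      x ∈ Op z.1.1 z.2.1 (RKr.W z.2.1 (cd z.1) z.2.2) := by
    rw [eventually_countable_forall]
    exact fun z => residual_of_dense_open (h1 z) (h2 z)
  filter_upwards [h3] with x hx B hB hred
  obtain ⟨f, k, hf, hfk⟩ := hred
  obtain ⟨m, hm⟩ := hB _ (RKr.isMLTest_W (hcd ⟨f, hf⟩) k)
  obtain ⟨n, hn⟩ := hx (⟨f, hf⟩, k, m)
  have hlen : ∀ l, (restr B l).length = l := fun l => by simp [restr]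
  have htake : ∀ i ≤ n, (restr B n).take i = restr B i := by
    intro i hi
    unfold restr
    rw [← List.map_take, List.take_range]
    congr 2
    omega
  have hW := hn (restr B n) (hlen n) (by
    intro i hi
    obtain ⟨j, hj, h4⟩ := hfk i
    refine ⟨j, hj, ?_⟩
    rw [take_pre x hi, htake i hi, ← pre_eq_restr]
    exact h4)
  apply hm
  refine Set.mem_iUnion₂.2 ⟨restr B n, hW, ?_⟩
  intro i b hib
  unfold restr at hib
  rw [List.getElem?_map] at hib
  by_cases hi : i < n
  · rw [List.getElem?_range hi] at hib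
    simpa using hib
  · rw [List.getElem?_eq_none (by simpa using hi)] at hib
    simp at hib

/-- **Some set is not rK-reducible to any 1-random set**; in fact this holds for comeager many
sets. -/
theorem result :
    (∃ A : Set ℕ, ∀ B : Set ℕ, IsRandom B → ¬ RKRed A B) ∧
    ∀ᶠ x in residual (ℕ → Bool), ∀ B : Set ℕ, IsRandom B → ¬ RKRed {i | x i = true} B := by
  refine ⟨?_, comeager⟩
  obtain ⟨x, hx⟩ := (dense_of_mem_residual comeager).nonempty
  exact ⟨_, hx⟩

end Pool.Agent.Results.MP_f87d4f_lc.RKVersion
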