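import Pool.Agent.KRD.Slow

/-!
# MP_f87d4f_lc : Q1 may be tested with a slowly growing error, on few sets

Q1 asks whether every set is K-reducible to some 1-random set. It is shown to be equivalent to much
weaker statements (for one weakly 2-generic set, for non-meager many sets, for the low 1-generic
sets, each with an arbitrarily slowly growing error term allowed) and to much stronger ones (one
constant for all sets; a finite form, which is a sentence about strings).
-/

namespace Pool.Agent.Results.MP_f87d4f_lc.SlowError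

open AC

/-- Prefix-free complexity of a string with respect to the machine `U`. -/
noncomputable def K (U : List Bool →. ℕ) (σ : List Bool) : ℕ := KC U (Encodable.encode σ)

/-- K-reducibility: `A ≤_K B` if `K(A ↾ n) ≤ K(B ↾ n) + c` for some `c` and all `n`. -/
def KRed (A B : Set ℕ) : Prop :=
  ∃ U, IsOptimal ∅ U ∧ ∃ c : ℕ, ∀ n, K U (restr A n) ≤ K U (restr B n) + c

/-- `S` is c.e. in `X`: the domain of a partial function recursive in `X`. -/
def CEIn {α : Type} [Primcodable α] (X : Set ℕ) (S : Set α) : Prop :=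
  ∃ f : α →. ℕ, RecursiveIn {chi X} f ∧ ∀ a, a ∈ S ↔ (f a).Dom

/-- `A` is weakly 2-generic: it meets every dense set of strings which is c.e. in the halting
set. -/
def WeaklyTwoGeneric (A : Set ℕ) : Prop :=
  ∀ S : Set (List Bool), CEIn halting S → (∀ σ, ∃ τ ∈ S, σ <+: τ) → ∃ n, restr A n ∈ S

/-- `A` is 1-generic: it meets or avoids every c.e. set of strings. -/
def OneGeneric (A : Set ℕ) : Prop :=
  ∀ S : Set (List Bool), REPred (fun σ => σ ∈ S) →
    ∃ n, restr A n ∈ S ∨ ∀ τ ∈ S, ¬ restr A n <+: τ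

/-- `A` is low: every set c.e. in `A` is computable from the halting set. Equivalently, the jump of
`A` is Turing reducible to the halting set. -/
def Low (A : Set ℕ) : Prop := ∀ S : Set ℕ, CEIn A S → LeT S halting

/-- `f` is nondecreasing, unbounded and computable from the halting set (that is, its graph is). -/
def SlowOrder (f : ℕ → ℕ) : Prop :=
  Monotone f ∧ (∀ k, ∃ n, k ≤ f n) ∧ LeT {x | f x.unpair.1 = x.unpair.2} halting

/-- Some set `B` satisfies `K(B ↾ n) ≥ n - f(n) - c` and `K(A ↾ n) ≤ K(B ↾ n) + f(n) + c` for some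
`c` and all `n`. -/
def KBelow (U : List Bool →. ℕ) (f : ℕ → ℕ) (A : Set ℕ) : Prop :=
  ∃ B : Set ℕ, ∃ c : ℕ, ∀ n, n ≤ K U (restr B n) + f n + c ∧
    K U (restr A n) ≤ K U (restr B n) + f n + c

/-! ### bridges -/

open Low4 in
theorem ce_of_CEIn {α : Type} [Primcodable α] {X : Set ℕ} {S : Set α} (h : CEIn X S) :
    CE X fun a => a ∈ S := by
  obtain ⟨f, hf, hS⟩ := h
  have h1 := ce_graph hf
  refine (CE.ex (p := fun (a : α) (x : ℕ) => x ∈ f a) h1).of_eq fun a => ?_
  rw [hS, Part.dom_iff_mem]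

open Low4 in
theorem CEIn_of_ce {X : Set ℕ} {S : Set (List Bool)} (h : CE X fun σ => σ ∈ S) : CEIn X S := by
  have h1 : CE X fun p : List Bool × ℕ => p.1 ∈ S ∧ p.2 = 0 :=
    CE.and (h.comp Computable.fst) (CE.of_sig1 (Lowk.sig_eq Computable.snd (Computable.const 0)))
  have h2 : ∀ (σ : List Bool) (x y : ℕ), (σ ∈ S ∧ x = 0) → (σ ∈ S ∧ y = 0) → x = y :=
    fun σ x y hx hy => hx.2.trans hy.2.symm
  refine ⟨partOf fun σ x => σ ∈ S ∧ x = 0, recursiveIn_of_ce h1 h2, fun σ => ?_⟩
  rw [Part.dom_iff_mem]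
  constructor
  · intro hσ
    exact ⟨0, (mem_partOf h2).2 ⟨hσ, rfl⟩⟩
  · rintro ⟨x, hx⟩
    exact ((mem_partOf h2).1 hx).1

open Low4 in
theorem low_of_red {A : Set ℕ} (h : Red (J A) halting) : Low A := by
  intro S hS
  exact turing_iff_red.2 (((ce_of_CEIn hS).dec_J).trans h)

open Low4 in
theorem oneGeneric_of_generic {A : Set ℕ} (h : Generic A ∅) : OneGeneric A := by
  intro S hS
  obtain ⟨n, hn⟩ := h (fun σ => σ ∈ S) (CE.of_sig1 (Sig1.of_re hS))
  refine ⟨n, ?_⟩
  rcases hn with hn | hn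
  · exact Or.inl hn
  · exact Or.inr fun τ hτ hp => hn τ hp hτ

open Low4 in
theorem weaklyTwoGeneric_of_generic {A : Set ℕ} (h : Generic A halting) : WeaklyTwoGeneric A := by
  intro S hS hd
  obtain ⟨n, hn⟩ := h (fun σ => σ ∈ S) (ce_of_CEIn hS)
  refine ⟨n, ?_⟩
  rcases hn with hn | hn
  · exact hn
  · obtain ⟨τ, h1, h2⟩ := hd (restr A n)
    exact absurd h1 (hn τ h2)

open Low4 in
theorem slowOrder_of_ce {f : ℕ → ℕ} (h1 : KRD.IsOrd f)
    (h2 : CE halting fun z : ℕ × ℕ => f z.1 = z.2) : SlowOrder f := by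
  refine ⟨h1.1, h1.2, turing_iff_red.2 ⟨?_, ?_⟩⟩
  · exact h2.comp (f := fun x : ℕ => x.unpair) Computable.unpair
  · have h3 : CE halting fun z : ℕ × ℕ => f z.1.unpair.1 = z.2 :=
      h2.comp (f := fun z : ℕ × ℕ => (z.1.unpair.1, z.2))
        (Computable.pair (Computable.fst.comp (Computable.unpair.comp Computable.fst))
          Computable.snd)
    have h4 : CE halting fun z : ℕ × ℕ => decide (z.2 = z.1.unpair.2) = false := by
      refine (CE.of_sig1 (Sig1.of_computable (f := fun z : ℕ × ℕ =>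
        !(decide (z.2 = z.1.unpair.2))) (Primrec.not.to_comp.comp
        (((Primrec.eq (α := ℕ)).decide.to_comp).comp Computable.snd
          (Computable.snd.comp (Computable.unpair.comp Computable.fst)))))).of_eq fun z => ?_
      simp
    refine (CE.ex (p := fun (x : ℕ) (v : ℕ) => f x.unpair.1 = v ∧
      decide (v = x.unpair.2) = false) (h3.and h4)).of_eq fun x => ?_
    simp only [decide_eq_false_iff_not]
    constructor
    · rintro ⟨v, rfl, h5⟩
      exact h5
    · intro h5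
      exact ⟨_, rfl, h5⟩

theorem kBelow_iff (U : List Bool →. ℕ) (f : ℕ → ℕ) (A : Set ℕ) :
    KBelow U f A ↔ ∃ B : Set ℕ, ∃ c, KRD.Above U f c A B := Iff.rfl

/-- a set which is K-reducible to a 1-random set has a host -/
theorem exists_host {U : List Bool →. ℕ} (hU : IsOptimal ∅ U) {A : Set ℕ}
    (h : ∃ B, IsRandom B ∧ KRed A B) :
    ∃ (B : Set ℕ) (c : ℕ), ∀ n, n ≤ K U (restr B n) + c ∧ K U (restr A n) ≤ K U (restr B n) + c := by
  obtain ⟨B, hB, V, hV, c, hc⟩ := h
  obtain ⟨c1, h1⟩ := (KRD.schnorr hU).1 hB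
  obtain ⟨c2, h2⟩ := KRD.KC_inv hU hV
  obtain ⟨c3, h3⟩ := KRD.KC_inv hV hU
  refine ⟨B, c + c1 + c2 + c3, fun n => ⟨?_, ?_⟩⟩
  · have h4 := h1 n
    have e : KRD.kc U (Low4.pre B n) = K U (restr B n) := rfl
    omega
  · have h4 := h2 (Encodable.encode (restr B n))
    have h5 := h3 (Encodable.encode (restr A n))
    have h6 := hc n
    unfold K at *
    omega

theorem kBelow_of_host {U : List Bool →. ℕ} (hU : IsOptimal ∅ U) {A : Set ℕ}
    (h : ∃ B, IsRandom B ∧ KRed A B) (f : ℕ → ℕ) : KBelow U f A := by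
  obtain ⟨B, c, hc⟩ := exists_host hU h
  refine ⟨B, c, fun n => ?_⟩
  have := hc n
  omega

theorem comeager {U : List Bool →. ℕ} {f : ℕ → ℕ} (hf : Monotone f)
    (h : ∀ c σ, ∃ α, KRD.NoHost U f c (σ ++ α)) :
    ∀ᶠ x in residual (ℕ → Bool), ¬ KBelow U f {i | x i = true} := by
  have h1 : ∀ c : ℕ, IsOpen {x : ℕ → Bool | ∃ n, KRD.NoHost U f c (Cpt.seg x n)} := by
    intro c
    have : {x : ℕ → Bool | ∃ n, KRD.NoHost U f c (Cpt.seg x n)} =
        ⋃ n, {x : ℕ → Bool | KRD.NoHost U f c (Cpt.seg x n)} := by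
      ext x
      simp
    rw [this]
    exact isOpen_iUnion fun n => Cpt.isOpen_seg _ n
  have h2 : ∀ c : ℕ, Dense {x : ℕ → Bool | ∃ n, KRD.NoHost U f c (Cpt.seg x n)} := by
    intro c
    rw [(PiNat.isTopologicalBasis_cylinders (E := fun _ => Bool)).dense_iff]
    rintro _ ⟨x, n, rfl⟩ -
    obtain ⟨α, hα⟩ := h c (Cpt.seg x n)
    set σ := Cpt.seg x n ++ α with hσ
    set y : ℕ → Bool := fun i => σ.getD i false with hy
    have hyσ : Cpt.seg y σ.length = σ := by
      refine List.ext_getElem (Cpt.seg_length _ _) fun i hi1 hi2 => ?_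
      simp [Cpt.seg, hy, List.getElem?_eq_getElem hi2]
    refine ⟨y, ?_, σ.length, ?_⟩
    · intro i hi
      have h3 : σ[i]? = (Cpt.seg x n)[i]? := by
        rw [hσ, List.getElem?_append_left (by rw [Cpt.seg_length]; exact hi)]
      have h4 : (Cpt.seg x n)[i]? = some (x i) := by simp [Cpt.seg, hi]
      rw [h4] at h3
      simp [hy, List.getD_eq_getElem?_getD, h3]
    · rw [hyσ]
      exact hα
  have h3 : ∀ᶠ x in residual (ℕ → Bool), ∀ c : ℕ, ∃ n, KRD.NoHost U f c (Cpt.seg x n) := by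
    rw [eventually_countable_forall]
    exact fun c => residual_of_dense_open (h1 c) (h2 c)
  filter_upwards [h3] with x hx hK
  obtain ⟨B, c, hc⟩ := (kBelow_iff U f _).1 hK
  obtain ⟨n, hn⟩ := hx c
  rw [Cpt.seg_eq_pre] at hn
  exact hc.host hf n hn

/-- The following are equivalent, for every optimal prefix-free machine `U`:
* every set is K-reducible to some 1-random set (question Q1);
* for every unbounded nondecreasing `f ≤_T ∅'`, SOME weakly 2-generic set `A` has a set `B` with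
  `K(B ↾ n) ≥ n - f(n) - O(1)` and `K(A ↾ n) ≤ K(B ↾ n) + f(n) + O(1)`;
* for every such `f`, the sets `A` for which there is such a `B` are not meager;
* for every such `f`, there is such a `B` for every low 1-generic set `A`;
* with one constant `c` for all `A`: there is `B` with `K(B ↾ n) ≥ n - c` and
  `K(A ↾ n) ≤ K(B ↾ n) + c`;
* the finite form of the last statement. -/
theorem result (U : List Bool →. ℕ) (hU : IsOptimal ∅ U) :
    List.TFAE [
      ∀ A : Set ℕ, ∃ B : Set ℕ, IsRandom B ∧ KRed A B,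
      ∀ f, SlowOrder f → ∃ A, WeaklyTwoGeneric A ∧ KBelow U f A,
      ∀ f, SlowOrder f → ¬ IsMeagre {x : ℕ → Bool | KBelow U f {i | x i = true}},
      ∀ f, SlowOrder f → ∀ A, OneGeneric A → Low A → KBelow U f A,
      ∃ c : ℕ, ∀ A : Set ℕ, ∃ B : Set ℕ, ∀ n, n ≤ K U (restr B n) + c ∧
        K U (restr A n) ≤ K U (restr B n) + c,
      ∃ c : ℕ, ∀ α : List Bool, ∃ β : List Bool, β.length = α.length ∧
        ∀ n ≤ α.length, n ≤ K U (β.take n) + c ∧ K U (α.take n) ≤ K U (β.take n) + c] := by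
  have key : ¬ KRD.Fin1 U → ∃ f, SlowOrder f ∧ Monotone f ∧
      (Low4.Dec halting fun z : ℕ × List Bool => KRD.NoHost U f z.1 z.2) ∧
      ∀ c σ, ∃ α, KRD.NoHost U f c (σ ++ α) := by
    intro h
    obtain ⟨f, h1, h2, h3⟩ := KRD.exists_order hU h
    exact ⟨f, slowOrder_of_ce h1 h2, h1.1, KRD.dec_NoHost hU h2, h3⟩
  tfae_have 1 → 2 := by
    intro h f _
    exact ⟨Low4.G halting, weaklyTwoGeneric_of_generic (Low4.generic_G halting),
      kBelow_of_host hU (h _) f⟩
  tfae_have 1 → 3 := by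
    intro h f _ hm
    have h1 : {x : ℕ → Bool | KBelow U f {i | x i = true}} = Set.univ :=
      Set.eq_univ_of_forall fun x => kBelow_of_host hU (h _) f
    rw [h1, IsMeagre, Set.compl_univ] at hm
    exact (dense_of_mem_residual hm).nonempty.elim fun x hx => hx
  tfae_have 1 → 4 := by
    intro h f _ A _ _
    exact kBelow_of_host hU (h A) f
  tfae_have 2 → 6 := by
    intro h
    by_contra hF
    obtain ⟨f, h1, h2, h3, h4⟩ := key hF
    obtain ⟨A, hA, B, c, hc⟩ := h f h1
    obtain ⟨n, hn⟩ := hA {α | KRD.NoHost U f c α} (CEIn_of_ce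
      (h3.1.comp (f := fun α : List Bool => (c, α)) (Computable.pair (Computable.const c)
        Computable.id))) (fun σ => by
        obtain ⟨α, hα⟩ := h4 c σ
        exact ⟨σ ++ α, hα, List.prefix_append _ _⟩)
    exact KRD.Above.host h2 (A := A) (B := B) hc n hn
  tfae_have 3 → 6 := by
    intro h
    by_contra hF
    obtain ⟨f, h1, h2, h3, h4⟩ := key hF
    exact h f h1 (comeager h2 h4)
  tfae_have 4 → 6 := by
    intro h
    by_contra hF
    obtain ⟨f, h1, h2, h3, h4⟩ := key hF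
    obtain ⟨A, h5, h6, h7⟩ := KRD.exists_low h3 h4
    obtain ⟨B, c, hc⟩ := h f h1 A (oneGeneric_of_generic h5) (low_of_red h6)
    obtain ⟨n, hn⟩ := h7 c
    exact KRD.Above.host h2 (A := A) (B := B) hc n hn
  tfae_have 6 → 5 := by
    rintro ⟨c, hc⟩
    refine ⟨c, fun A => ?_⟩
    obtain ⟨B, hB⟩ := KRD.exists_hostInf (U := U) (c := c) (A := A) fun n => hc _
    exact ⟨B, hB⟩
  tfae_have 5 → 1 := by
    rintro ⟨c, hc⟩ A
    obtain ⟨B, hB⟩ := hc A
    exact ⟨B, (KRD.schnorr hU).2 ⟨c, fun n => (hB n).1⟩, U, hU, c, fun n => (hB n).2⟩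
  tfae_finish

end Pool.Agent.Results.MP_f87d4f_lc.SlowError
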