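import Pool.Agent.KExp.Main
import Pool.Agent.KRed.Sch2

/-!
# MP_f87d4f_lc : the finite form of Q1 with the error `0.95 log N`

Q1 is equivalent to its finite form: with one constant `c`, every string `τ` has a random string `σ`
of the same length with `K(τ ↾ n) ≤ K(σ ↾ n) + c` for all `n`. Here the additive error is
`0.95 log₂ N + c` at the lengths `n ≤ N` (by counting, `log₂ N + c` is trivial, with most strings `σ`).
-/

set_option autoImplicit false

namespace Pool.Agent.Results.MP_f87d4f_lc.StringBound

open AC

/-- The prefix-free complexity of the string `σ`, with respect to the machine `U`. -/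
noncomputable def K (U : List Bool →. ℕ) (σ : List Bool) : ℕ := KC U (Encodable.encode σ)

/-- Let `U` be any optimal prefix-free machine and `K` its complexity. There is `c` such that for
every string `τ` some string `σ` of the same length `N` satisfies `K(σ ↾ n) ≥ n - c` and
`K(τ ↾ n) ≤ K(σ ↾ n) + 0.95 log₂ N + c` for all `n ≤ N`. -/
theorem result (U : List Bool →. ℕ) (hU : IsOptimal ∅ U) :
    ∃ c : ℕ, ∀ τ : List Bool, ∃ σ : List Bool, σ.length = τ.length ∧ ∀ n ≤ τ.length,
      n ≤ K U (σ.take n) + c ∧
      (K U (τ.take n) : ℝ) ≤ K U (σ.take n) + 0.95 * Real.logb 2 τ.length + c := by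
  have h95 : (0.95 : ℝ) = 19 / 20 := by norm_num
  rw [h95]
  exact KExp.main hU

end Pool.Agent.Results.MP_f87d4f_lc.StringBound
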